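import Pool.Agent.W128.VA.Stm2

/-!
# Project VA, part DEC: the decomposition into irreducible submodules (Zorn)
-/

set_option autoImplicit false

namespace Pool.Agent.W878.VA

open Pool.Agent.W128.VA

section

variable {M : Type*} [AddCommGroup M] [Module ℂ M]

theorem end_sSup (T : Module.End ℂ M) (S : Set (Submodule ℂ M))
    (hS : ∀ N ∈ S, ∀ w ∈ N, T w ∈ N) : ∀ w ∈ sSup S, T w ∈ sSup S := by
  have : sSup S ≤ (sSup S).comap T := by
    apply sSup_le
    intro N hN w hw
    exact (le_sSup hN : N ≤ sSup S) (hS N hN w hw)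
  exact this

theorem stab_sSup {h e f : ℤ → Module.End ℂ M} (S : Set (Submodule ℂ M))
    (hS : ∀ N ∈ S, Stab h e f N) : Stab h e f (sSup S) :=
  ⟨fun n => end_sSup (h n) S fun N hN => (hS N hN).1 n,
    fun n => end_sSup (e n) S fun N hN => (hS N hN).2.1 n,
    fun n => end_sSup (f n) S fun N hN => (hS N hN).2.2 n⟩

theorem stab_inf {h e f : ℤ → Module.End ℂ M} {N N' : Submodule ℂ M}
    (h1 : Stab h e f N) (h2 : Stab h e f N') : Stab h e f (N ⊓ N') :=
  ⟨fun n w hw => ⟨h1.1 n w hw.1, h2.1 n w hw.2⟩,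
    fun n w hw => ⟨h1.2.1 n w hw.1, h2.2.1 n w hw.2⟩,
    fun n w hw => ⟨h1.2.2 n w hw.1, h2.2.2 n w hw.2⟩⟩

theorem indep_insert {S : Set (Submodule ℂ M)} {a : Submodule ℂ M} (hS : sSupIndep S)
    (ha : Disjoint a (sSup S)) : sSupIndep (insert a S) := by
  intro x hx
  obtain rfl | xa := eq_or_ne x a
  · refine ha.mono_right (sSup_le_sSup ?_)
    intro y hy
    exact hy.1.resolve_left hy.2
  · have h : (insert a S) \ {x} = insert a (S \ {x}) := by
      rw [Set.insert_sdiff_of_notMem]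
      rw [Set.mem_singleton_iff]
      exact Ne.symm xa
    have hxS : x ∈ S := hx.resolve_left xa
    rw [h, sSup_insert, sup_comm]
    apply (hS hxS).disjoint_sup_right_of_disjoint_sup_left
    rw [← sSup_insert, Set.insert_sdiff_singleton, Set.insert_eq_of_mem hxS]
    exact ha.symm

end

theorem main.{u} : S_EIG.{u} → S_HEI1.{u} → S_IRR.{u} → S_DEC.{u} := by
  intro hE hH hI M _ _ gr h e f H
  set G : Set (Submodule ℂ M) := {N | Good gr h e f N} with hG
  have hGst : ∀ N ∈ G, Stab h e f N := fun N hN => hN.2.1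
  have htop : sSup G = ⊤ := by
    apply hH M gr h e f H
    · intro d w hw hk
      have h1 : w ∈ ⨆ j : ℤ, Om h j ⊓ gr d := hE M gr h e f H d w hw hk
      have h2 : (⨆ j : ℤ, Om h j ⊓ gr d) ≤ sSup G := by
        apply iSup_le
        intro j v hv
        by_cases hv0 : v = 0
        · rw [hv0]; exact Submodule.zero_mem _
        · obtain ⟨N, hvN, hN⟩ := hI M gr h e f H j d v hv.1 hv.2 hv0
          exact (le_sSup (show N ∈ G from hN) : N ≤ sSup G) hvN
      exact h2 h1
    · intro n _ w hw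
      exact (stab_sSup G hGst).1 (-n) w hw
  obtain ⟨S, hSmax⟩ := zorn_subset {s : Set (Submodule ℂ M) | s ⊆ G ∧ sSupIndep s} (by
    intro c hc hchain
    refine ⟨⋃₀ c, ⟨Set.sUnion_subset fun s hs => (hc hs).1, ?_⟩,
      fun s hs => Set.subset_sUnion_of_mem hs⟩
    exact iSupIndep_sUnion_of_directed hchain.directedOn fun s hs => (hc hs).2)
  have hSG : S ⊆ G := hSmax.prop.1
  have hSi : sSupIndep S := hSmax.prop.2
  have hle : ∀ N ∈ G, N ≤ sSup S := by
    intro N hN
    have hst : Stab h e f (N ⊓ sSup S) :=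
      stab_inf (hGst N hN) (stab_sSup S fun N' hN' => hGst N' (hSG hN'))
    rcases hN.2.2.2 (N ⊓ sSup S) inf_le_left hst with h0 | h1
    · have hins : sSupIndep (insert N S) := indep_insert hSi (disjoint_iff.2 h0)
      have hmem : insert N S ∈ {s : Set (Submodule ℂ M) | s ⊆ G ∧ sSupIndep s} :=
        ⟨Set.insert_subset hN hSG, hins⟩
      have : insert N S ⊆ S := hSmax.le_of_ge hmem (Set.subset_insert N S)
      exact le_sSup (this (Set.mem_insert N S))
    · exact inf_eq_left.1 h1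
  refine ⟨S, fun i => i.1, fun i => hSG i.2, (sSupIndep_iff S).1 hSi, ?_⟩
  rw [← sSup_eq_iSup', eq_top_iff, ← htop]
  exact sSup_le hle

end Pool.Agent.W878.VA
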